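import Mathlib
import Pool.Agent.Q237.LS.Glo
import Pool.Agent.Y725.LS.Energy

/-!
# The energy inequality
-/

set_option autoImplicit false
set_option linter.unusedSectionVars false

namespace Pool.Agent.Q237.LS

open NumberField IsDedekindDomain Finset Pool.Agent.H691R3 Pool.Agent.W223.AK
open Pool.Agent.TH942 Pool.Agent.TH910.LS Pool.Agent.Y733.LS WeierstrassCurve Filter Topology

section Glob

variable {K : Type} [Field K] [NumberField K]

/-- the constant in the loss -/
noncomputable def c1 : ℝ := Real.log 250 + Real.log ((4 * 6912 * 46656 : ℕ) : ℝ)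

/-- the total loss -/
theorem Loss_le {a b : K} (ha : a ≠ 0) (hb : b ≠ 0) (hD : dl a b ≠ 0) :
    Loss a b ≤ ht (jj a b) - wd (jj a b) + Module.finrank ℚ K * c1 := by
  classical
  have hs1 := Fs_lossg ha hb hD
  have hs2 := Fs_ht (jj a b)
  have hs3 : (Function.support fun v : Pr K =>
      if v ∈ wf (jj a b) then Real.log (fv v (jj a b)) else 0).Finite := supp_ite _ _
  set N1 : ℕ := 4 * 6912 * 46656 with hN1
  have hN1' : N1 ≠ 0 := by norm_num [hN1]
  have hs4 : (Function.support fun v : Pr K => Real.log (fv v (N1 : K))).Finite :=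
    Fs_log (K := K) (z := (N1 : K)) (Nat.cast_ne_zero.2 hN1')
  have e1 : ht (jj a b) - wd (jj a b) +
      Module.finrank ℚ K * (Real.log 250 + Real.log (N1 : ℝ)) =
      Sm (fun w => (Real.log (max (w.1 (jj a b)) 1) - 0) + (Real.log 250 + 0))
        (fun v => (Real.log (max (fv v (jj a b)) 1) -
          (if v ∈ wf (jj a b) then Real.log (fv v (jj a b)) else 0)) +
            (0 + -1 * Real.log (fv v (N1 : K)))) := by
    rw [Sm_add (supp_sub hs2 hs3) (supp_add (by simp) (supp_mul (-1) hs4)), Sm_sub hs2 hs3,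
      Sm_add (by simp) (supp_mul (-1) hs4)]
    have e2 : Sm (fun _ : InfinitePlace K => (0 : ℝ)) (fun v : Pr K =>
        if v ∈ wf (jj a b) then Real.log (fv v (jj a b)) else 0) = wd (jj a b) := Sm_ite _ _
    have e3 : Sm (fun _ : InfinitePlace K => Real.log 250) (fun _ : Pr K => (0 : ℝ)) =
        Module.finrank ℚ K * Real.log 250 := Sm_const _
    have e4 : Sm (fun _ : InfinitePlace K => (0 : ℝ)) (fun v : Pr K =>
        -1 * Real.log (fv v (N1 : K))) = Module.finrank ℚ K * Real.log (N1 : ℝ) := by
      unfold Sm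
      simp only [mul_zero, Finset.sum_const_zero, zero_add]
      have h5 := fin_nat (K := K) hN1'
      have h6 : ∑ᶠ v : Pr K, -1 * Real.log (fv v (N1 : K)) =
          -1 * ∑ᶠ v : Pr K, Real.log (fv v (N1 : K)) := by
        rw [← smul_eq_mul, smul_finsum]
        rfl
      rw [h6, h5]
      ring
    rw [e2, e3, e4, ht_eq_Sa]
    unfold Sa
    ring
  unfold c1
  rw [e1]
  have hd : ∀ w : AbsoluteValue K ℝ, 0 < w (dl a b) := fun w => w.pos hD
  apply Sm_mono hs1 (supp_add (supp_sub hs2 hs3) (supp_add (by simp) (supp_mul (-1) hs4)))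
  · intro w
    unfold lossi
    have h6912 : w.1 (6912 : K) = 6912 := by
      have := inf_nat w 6912
      exact_mod_cast this
    have h46656 : w.1 (46656 : K) = 46656 := by
      have := inf_nat w 46656
      exact_mod_cast this
    have h1728 : w.1 (1728 : K) = 1728 := by
      have := inf_nat w 1728
      exact_mod_cast this
    have h4 : w.1 (4 : K) = 4 := by
      have := inf_nat w 4
      exact_mod_cast this
    have hmx : 0 < max (w.1 (jj a b)) 1 := lt_max_of_lt_right one_pos
    rw [sub_zero, add_zero, ← Real.log_mul hmx.ne' (by norm_num)]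
    have hsz := sz_pos (w := w.1) (b := b) ha
    apply Real.log_le_log
    · have : 0 < w.1 (4 * dl a b) := w.1.pos (mul_ne_zero (by norm_num) hD)
      positivity
    · rw [map_mul, h4, div_le_iff₀ (by have := hd w.1; positivity), sz_six]
      have i1 := w_jj w.1 a b
      have i2 := w_jj_sub w.1 a b hD
      rw [h6912] at i1
      rw [h46656] at i2
      have j1 : w.1 a ^ 3 = w.1 (jj a b) * w.1 (dl a b) / 6912 := by
        rw [i1]
        have := (hd w.1).ne'
        field_simp
      have j2 : w.1 b ^ 2 = w.1 (jj a b - 1728) * w.1 (dl a b) / 46656 := by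
        rw [i2]
        have := (hd w.1).ne'
        field_simp
      have j3 : w.1 (jj a b - 1728) ≤ w.1 (jj a b) + 1728 := by
        have := w.1.sub_le (jj a b) 0 1728
        simp only [sub_zero, zero_sub, map_neg_eq_map] at this
        linarith
      have j4 := le_max_left (w.1 (jj a b)) 1
      have j5 := le_max_right (w.1 (jj a b)) 1
      have j6 := hd w.1
      have k1 : w.1 a ^ 3 ≤ max (w.1 (jj a b)) 1 * w.1 (dl a b) := by
        rw [j1]
        have : w.1 (jj a b) * w.1 (dl a b) ≤ max (w.1 (jj a b)) 1 * w.1 (dl a b) := by gcongr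
        have : 0 ≤ w.1 (jj a b) * w.1 (dl a b) := by positivity
        linarith
      have k2 : w.1 b ^ 2 ≤ max (w.1 (jj a b)) 1 * w.1 (dl a b) := by
        rw [j2]
        have k3 : w.1 (jj a b - 1728) ≤ 1729 * max (w.1 (jj a b)) 1 := by linarith
        have k4 : w.1 (jj a b - 1728) * w.1 (dl a b) ≤
            1729 * max (w.1 (jj a b)) 1 * w.1 (dl a b) := by gcongr
        have : 0 ≤ max (w.1 (jj a b)) 1 * w.1 (dl a b) := by positivity
        linarith
      have k5 := max_le k1 k2
      linarith
  · intro v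
    have hn := fv_Na v
    have hnat : fv v (N1 : K) ≤ 1 := hn.nat N1
    have hNpos : 0 < fv v (N1 : K) := (fv v).pos (Nat.cast_ne_zero.2 hN1')
    have hmx : 0 < max (fv v (jj a b)) 1 := lt_max_of_lt_right one_pos
    have hlogN : Real.log (fv v (N1 : K)) ≤ 0 := Real.log_nonpos hNpos.le hnat
    unfold lossg
    split_ifs with hsp
    · have h1 : max (fv v (jj a b)) 1 = fv v (jj a b) :=
        max_eq_left (mem_wf.1 hsp).2.2.le
      show 0 ≤ Real.log (max (fv v (jj a b)) 1) - Real.log (fv v (jj a b)) +
        (0 + -1 * Real.log (fv v (N1 : K)))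
      rw [h1]
      linarith
    · have hsz := sz_pos (w := fv v) (b := b) ha
      have h4D : 0 < fv v (4 * dl a b) := (fv v).pos (mul_ne_zero (by norm_num) hD)
      have goal : Real.log (sz (fv v) a b ^ 6 / fv v (4 * dl a b)) ≤
          Real.log (max (fv v (jj a b)) 1 / fv v (N1 : K)) := by
        apply Real.log_le_log (by positivity)
        have n4 : fv v (4 : K) ≤ 1 := hn.ofNat 4
        have n6912 : fv v (6912 : K) ≤ 1 := hn.ofNat 6912
        have n46656 : fv v (46656 : K) ≤ 1 := hn.ofNat 46656
        have p4 : 0 < fv v (4 : K) := (fv v).pos (by norm_num)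
        have p6912 : 0 < fv v (6912 : K) := (fv v).pos (by norm_num)
        have p46656 : 0 < fv v (46656 : K) := (fv v).pos (by norm_num)
        have eN : fv v (N1 : K) = fv v 4 * fv v 6912 * fv v 46656 := by
          rw [← map_mul, ← map_mul]
          congr 1
          norm_num [hN1]
        rw [map_mul, div_le_div_iff₀ (by have := hd (fv v); positivity) hNpos, eN, sz_six]
        have j6 := hd (fv v)
        have i1 := w_jj (fv v) a b
        have i2 := w_jj_sub (fv v) a b hD
        have j1 : fv v 6912 * fv v a ^ 3 = fv v (jj a b) * fv v (dl a b) := by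
          rw [i1]
          have := j6.ne'
          field_simp
        have j2 : fv v 46656 * fv v b ^ 2 = fv v (jj a b - 1728) * fv v (dl a b) := by
          rw [i2]
          have := j6.ne'
          field_simp
        have j3 : fv v (jj a b - 1728) ≤ max (fv v (jj a b)) 1 := by
          refine (hn.sub _ _).trans (max_le_max le_rfl ?_)
          exact hn.ofNat 1728
        have j4 := le_max_left (fv v (jj a b)) 1
        set m := max (fv v (jj a b)) 1 with hm
        have k1 : fv v a ^ 3 * (fv v 4 * fv v 6912 * fv v 46656) ≤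
            m * (fv v 4 * fv v (dl a b)) := by
          calc fv v a ^ 3 * (fv v 4 * fv v 6912 * fv v 46656)
              = (fv v 6912 * fv v a ^ 3) * (fv v 4 * fv v 46656) := by ring
            _ = fv v (jj a b) * fv v (dl a b) * (fv v 4 * fv v 46656) := by rw [j1]
            _ ≤ m * fv v (dl a b) * (fv v 4 * 1) := by gcongr
            _ = _ := by ring
        have k2 : fv v b ^ 2 * (fv v 4 * fv v 6912 * fv v 46656) ≤
            m * (fv v 4 * fv v (dl a b)) := by
          calc fv v b ^ 2 * (fv v 4 * fv v 6912 * fv v 46656)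
              = (fv v 46656 * fv v b ^ 2) * (fv v 4 * fv v 6912) := by ring
            _ = fv v (jj a b - 1728) * fv v (dl a b) * (fv v 4 * fv v 6912) := by rw [j2]
            _ ≤ m * fv v (dl a b) * (fv v 4 * 1) := by gcongr
            _ = _ := by ring
        rcases max_choice (fv v a ^ 3) (fv v b ^ 2) with h | h
        · rw [h]; exact k1
        · rw [h]; exact k2
      rw [Real.log_div hmx.ne' hNpos.ne'] at goal
      linarith

theorem log_fv {v : Pr K} {z : K} (hz : z ≠ 0) : ∃ m : ℤ, Real.log (fv v z) =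
    m * Real.log (Nv v) := by
  obtain ⟨m, hm⟩ := fv_zpow v hz
  exact ⟨m, by rw [hm, Real.log_zpow]⟩

/-- the positions are multiples of half of `log N v` -/
theorem po_mult {a b : K} (hb : b ≠ 0) {v : Pr K} (hv : v ∈ wf (jj a b)) (x : K) :
    ∃ k : ℕ, po a b x v = k * (Real.log (Nv v) / 2) := by
  have hlam := lam_pos hv
  have hlog := log_Nv_pos v
  have hj0 : jj a b ≠ 0 := by
    intro h0
    have := (mem_wf.1 hv).2.2
    rw [h0, map_zero] at this
    linarith
  have hnat : ∀ m : ℤ, 0 ≤ (m : ℝ) * (Real.log (Nv v) / 2) → ∃ k : ℕ,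
      (m : ℝ) * (Real.log (Nv v) / 2) = k * (Real.log (Nv v) / 2) := by
    intro m hm
    have h1 : (0 : ℝ) ≤ m := by
      by_contra hcon
      push Not at hcon
      nlinarith
    have h2 : 0 ≤ m := by exact_mod_cast h1
    obtain ⟨k, rfl⟩ := Int.eq_ofNat_of_zero_le h2
    exact ⟨k, by push_cast; rfl⟩
  unfold po
  rcases le_or_gt (fv v (2 * a * x + 3 * b) / fv v b) (Real.exp (-lam (jj a b) v)) with h | h
  · rw [ps_small h]
    obtain ⟨m, hm⟩ := log_fv (v := v) hj0
    have e : lam (jj a b) v = m * (Real.log (Nv v) / 2) := by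
      unfold lam
      rw [hm]
      ring
    rw [e] at hlam ⊢
    exact hnat m hlam.le
  · rcases le_or_gt (fv v (2 * a * x + 3 * b) / fv v b) 1 with h1 | h1
    · rw [ps_mid h h1]
      have hne : 2 * a * x + 3 * b ≠ 0 := by
        intro h0
        rw [h0, map_zero, zero_div] at h
        exact absurd h (not_lt.2 (Real.exp_pos _).le)
      have hne' : (2 * a * x + 3 * b) / b ≠ 0 := div_ne_zero hne hb
      obtain ⟨m, hm⟩ := log_fv (v := v) hne'
      rw [← map_div₀] at h1 ⊢
      have h2 := Real.log_nonpos ((fv v).nonneg _) h1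
      rw [hm] at h2 ⊢
      have e : -((m : ℝ) * Real.log (Nv v)) = ((-2 * m : ℤ) : ℝ) * (Real.log (Nv v) / 2) := by
        push_cast
        ring
      rw [e]
      apply hnat
      rw [← e]
      linarith
    · rw [ps_big hlam h1.le]
      exact ⟨0, by simp⟩

/-- `Λ` is a multiple of half of `log N v` -/
theorem lam_mult {j : K} {v : Pr K} (hv : v ∈ wf j) :
    ∃ m : ℕ, lam j v = m * (Real.log (Nv v) / 2) := by
  have hlam := lam_pos hv
  have hlog := log_Nv_pos v
  have hj0 : j ≠ 0 := by
    intro h0
    have := (mem_wf.1 hv).2.2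
    rw [h0, map_zero] at this
    linarith
  obtain ⟨m, hm⟩ := log_fv (v := v) hj0
  have e : lam j v = m * (Real.log (Nv v) / 2) := by
    unfold lam
    rw [hm]
    ring
  rw [e] at hlam ⊢
  have h1 : (0 : ℝ) < m := by
    by_contra hcon
    push Not at hcon
    nlinarith
  have h2 : 0 ≤ m := by exact_mod_cast h1.le
  obtain ⟨k, rfl⟩ := Int.eq_ofNat_of_zero_le h2
  exact ⟨k, by push_cast; rfl⟩

/-- the kernel -/
noncomputable def ker (Λ s t : ℝ) : ℝ := (s ^ 2 + t ^ 2) / (2 * Λ) - max s t

theorem ker_eq {Λ s t : ℝ} : ker Λ s t = min s t - corr Λ s - corr Λ t := by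
  unfold ker corr
  have := min_add_max s t
  have e : (s ^ 2 + t ^ 2) / (2 * Λ) = s ^ 2 / (2 * Λ) + t ^ 2 / (2 * Λ) := add_div _ _ _
  rw [e]
  linarith

/-- **the inequality for a pair of points** -/
theorem pair_ineq {a b : K} (ha : a ≠ 0) (hb : b ≠ 0) (hD : dl a b ≠ 0) {x x' : K} (hx : x ≠ x')
    (T : Finset (Pr K)) (hT : Disjoint T (wf (jj a b)))
    (h1 : ∀ v ∈ T, sz (fv v) a b * Nv v ≤ fv v x) (h2 : ∀ v ∈ T, sz (fv v) a b * Nv v ≤ fv v x') :
    ∑ v ∈ wf (jj a b), ker (lam (jj a b) v) (po a b x v) (po a b x' v) +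
      ∑ v ∈ T, Real.log (Nv v) + Sa (fun w : AbsoluteValue K ℝ => Real.log (sz w a b)) ≤
      Psi a b x + Psi a b x' + Module.finrank ℚ K * Real.log 2 := by
  classical
  have hz : x - x' ≠ 0 := sub_ne_zero.2 hx
  have hs1 : (Function.support fun v : Pr K => Lam a b x (fv v)).Finite := Fs_Lam ha hb x
  have hs2 : (Function.support fun v : Pr K => Lam a b x' (fv v)).Finite := Fs_Lam ha hb x'
  have hs3 : (Function.support fun v : Pr K => Real.log (sz (fv v) a b)).Finite := Fs_sz ha hb
  have hs4 : (Function.support fun v : Pr K => if v ∈ wf (jj a b) then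
      min (po a b x v) (po a b x' v) else 0).Finite := supp_ite _ _
  have hs5 : (Function.support fun v : Pr K => if v ∈ T then Real.log (Nv v) else 0).Finite :=
    supp_ite _ _
  have hs6 : (Function.support fun v : Pr K => Real.log (fv v (x - x'))).Finite := Fs_log hz
  have e0 := Sa_log (K := K) hz
  have key : Sa (fun w : AbsoluteValue K ℝ => Real.log (w (x - x'))) ≤
      Sm (fun w => ((Lam a b x w.1 + Lam a b x' w.1) - Real.log (sz w.1 a b)) -
          ((0 + 0) - Real.log 2))
        (fun v => ((Lam a b x (fv v) + Lam a b x' (fv v)) - Real.log (sz (fv v) a b)) -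
          (((if v ∈ wf (jj a b) then min (po a b x v) (po a b x' v) else 0) +
            if v ∈ T then Real.log (Nv v) else 0) - 0)) := by
    apply Sm_mono hs6 (supp_sub (supp_sub (supp_add hs1 hs2) hs3)
      (supp_sub (supp_add hs4 hs5) (by simp)))
    · intro w
      have := pair_gen (w := w.1) (b := b) (C := 2) (by norm_num) ha hx (by
        have h3 := w.1.sub_le x 0 x'
        simp only [sub_zero, zero_sub, map_neg_eq_map] at h3
        have h4 := le_max_left (w.1 x) (w.1 x')
        have h5 := le_max_right (w.1 x) (w.1 x')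
        linarith)
      unfold Lam
      show Real.log (w.1 (x - x')) ≤ _
      linarith
    · intro v
      have hn := fv_Na v
      rw [sub_zero]
      show Real.log (fv v (x - x')) ≤ _
      by_cases hv : v ∈ wf (jj a b)
      · have hvT : v ∉ T := fun h => (Finset.disjoint_left.1 hT) h hv
        rw [if_pos hv, if_neg hvT, add_zero]
        obtain ⟨f1, _⟩ := wf_facts hD hv
        obtain ⟨w2, _, _⟩ := mem_wf.1 hv
        exact pair_pole hn w2 ha hb f1 (lam_pos hv) hx
      · by_cases hvT : v ∈ T
        · rw [if_neg hv, if_pos hvT, zero_add]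
          exact pair_large hn ha (Nv_pos v) hx (h1 v hvT) (h2 v hvT)
        · rw [if_neg hv, if_neg hvT, add_zero, sub_zero]
          have := pair_gen (w := fv v) (b := b) (C := 1) le_rfl ha hx (by
            rw [one_mul]
            exact hn.sub x x')
          rw [Real.log_one, add_zero] at this
          exact this
  rw [e0, Sm_sub (supp_sub (supp_add hs1 hs2) hs3) (supp_sub (supp_add hs4 hs5) (by simp)),
    Sm_sub (supp_add hs1 hs2) hs3, Sm_add hs1 hs2, Sm_sub (supp_add hs4 hs5) (by simp),
    Sm_add hs4 hs5, Sm_ite, Sm_ite, Sm_const] at key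
  have e1 : ∑ v ∈ wf (jj a b), ker (lam (jj a b) v) (po a b x v) (po a b x' v) =
      ∑ v ∈ wf (jj a b), min (po a b x v) (po a b x' v) - ∑ v ∈ wf (jj a b), cr a b x v -
        ∑ v ∈ wf (jj a b), cr a b x' v := by
    rw [← Finset.sum_sub_distrib, ← Finset.sum_sub_distrib]
    exact Finset.sum_congr rfl fun v _ => ker_eq
  rw [e1]
  unfold Psi Sa
  linarith

end Glob

end Pool.Agent.Q237.LS
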