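import Mathlib
import Pool.Agent.Q237.LS.Ene
import Pool.Agent.Y733.LS.Bad

/-!
# The lower bound for a single curve over a number field of any degree
-/

set_option autoImplicit false
set_option linter.unusedSectionVars false

namespace Pool.Agent.Q237.LS

open NumberField IsDedekindDomain Finset Pool.Agent.H691R3 Pool.Agent.W223.AK
open Pool.Agent.TH942 Pool.Agent.TH910.LS Pool.Agent.Y733.LS WeierstrassCurve Filter Topology

section Glob

variable {K : Type} [Field K] [NumberField K]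

/-- the constant -/
noncomputable def c2 : ℝ := 2 / 3 * c1 + Real.log 2 + Real.log 6912 / 6

theorem c1_nonneg : 0 ≤ c1 := add_nonneg (Real.log_nonneg (by norm_num))
  (Real.log_natCast_nonneg _)

theorem c2_nonneg : 0 ≤ c2 := by
  unfold c2
  have := c1_nonneg
  have h2 : 0 ≤ Real.log 2 := Real.log_nonneg (by norm_num)
  have h3 : 0 ≤ Real.log 6912 := Real.log_nonneg (by norm_num)
  positivity

/-- the energy at one pole of `j` -/
theorem energy_one {a b : K} (hb : b ≠ 0) {N : ℕ} (X : Fin N → K) {v : Pr K}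
    (hv : v ∈ wf (jj a b)) {s : ℝ} :
    (N : ℝ) ^ 2 * (2 * s * Real.log (Nv v) - s ^ 2 * Real.log (fv v (jj a b))) / 24 -
      (N : ℝ) ^ 2 * (Real.log (fv v (jj a b)) / 6) ≤
      ∑ p ∈ (univ : Finset (Fin N)).offDiag,
        ker (lam (jj a b) v) (po a b (X p.1) v) (po a b (X p.2) v) := by
  have hlam := lam_pos hv
  have hlog := log_Nv_pos v
  have hL : 0 < Real.log (fv v (jj a b)) := Real.log_pos (mem_wf.1 hv).2.2
  have h := Pool.Agent.Y725.LS.energy (n := N) hlam (u := Real.log (Nv v) / 2) (by positivity)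
    (lam_mult hv) (fun i => po a b (X i) v) (fun i => ps_le hlam) (fun i => po_mult hb hv (X i))
  have hcard : ((univ : Finset (Fin N)).offDiag.card : ℝ) = (N : ℝ) ^ 2 - N := by
    rw [Finset.offDiag_card, Finset.card_univ, Fintype.card_fin]
    rw [Nat.cast_sub (Nat.le_mul_self N)]
    push_cast
    ring
  have e1 : ∑ p ∈ (univ : Finset (Fin N)).offDiag,
      (((po a b (X p.1) v) ^ 2 + (po a b (X p.2) v) ^ 2) / (2 * lam (jj a b) v) -
        max (po a b (X p.1) v) (po a b (X p.2) v) + lam (jj a b) v / 3) =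
      ∑ p ∈ (univ : Finset (Fin N)).offDiag,
        ker (lam (jj a b) v) (po a b (X p.1) v) (po a b (X p.2) v) +
        ((N : ℝ) ^ 2 - N) * (lam (jj a b) v / 3) := by
    rw [Finset.sum_add_distrib, Finset.sum_const, nsmul_eq_mul, hcard]
    rfl
  rw [e1] at h
  have e2 : lam (jj a b) v = Real.log (fv v (jj a b)) / 2 := rfl
  rw [e2] at h
  have e3 : (N : ℝ) ^ 2 * (Real.log (Nv v) / 2) ^ 2 / (12 * (Real.log (fv v (jj a b)) / 2)) =
      (N : ℝ) ^ 2 * (Real.log (Nv v) ^ 2 / Real.log (fv v (jj a b))) / 24 := by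
    field_simp
    ring
  rw [e3] at h
  have h4 : 2 * s * Real.log (Nv v) - s ^ 2 * Real.log (fv v (jj a b)) ≤
      Real.log (Nv v) ^ 2 / Real.log (fv v (jj a b)) := by
    rw [le_div_iff₀ hL]
    nlinarith [sq_nonneg (Real.log (Nv v) - s * Real.log (fv v (jj a b)))]
  have h5 : (N : ℝ) ^ 2 * (2 * s * Real.log (Nv v) - s ^ 2 * Real.log (fv v (jj a b))) / 24 ≤
      (N : ℝ) ^ 2 * (Real.log (Nv v) ^ 2 / Real.log (fv v (jj a b))) / 24 := by
    gcongr
  have e4 : lam (jj a b) v = Real.log (fv v (jj a b)) / 2 := rfl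
  rw [e4]
  linarith

/-- **The energy inequality for a family of points.** -/
theorem energy_all {a b : K} (ha : a ≠ 0) (hb : b ≠ 0) (hD : dl a b ≠ 0) {N : ℕ}
    (X : Fin N → K) (hX : Function.Injective X) (T : Finset (Pr K))
    (hT : Disjoint T (wf (jj a b)))
    (hTX : ∀ v ∈ T, ∀ i, sz (fv v) a b * Nv v ≤ fv v (X i)) {H s : ℝ}
    (hH : ∀ i, Psi a b (X i) ≤ H + Loss a b / 3) :
    (N : ℝ) ^ 2 * (2 * s * fd (jj a b) - s ^ 2 * wd (jj a b)) / 24 +
      ((N : ℝ) ^ 2 - N) * ∑ v ∈ T, Real.log (Nv v) ≤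
      N * wd (jj a b) / 6 + ((N : ℝ) ^ 2 - N) * (2 * H + (ht (jj a b) - wd (jj a b)) / 2 +
        Module.finrank ℚ K * c2) := by
  have hcard : ((univ : Finset (Fin N)).offDiag.card : ℝ) = (N : ℝ) ^ 2 - N := by
    rw [Finset.offDiag_card, Finset.card_univ, Fintype.card_fin]
    rw [Nat.cast_sub (Nat.le_mul_self N)]
    push_cast
    ring
  have hN0 : 0 ≤ (N : ℝ) ^ 2 - N := by rw [← hcard]; positivity
  set n : ℝ := (Module.finrank ℚ K : ℝ) with hn
  set S := Sa (fun w : AbsoluteValue K ℝ => Real.log (sz w a b)) with hS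
  set ST := ∑ v ∈ T, Real.log (Nv v) with hST
  have h1 : ∑ p ∈ (univ : Finset (Fin N)).offDiag, (∑ v ∈ wf (jj a b),
      ker (lam (jj a b) v) (po a b (X p.1) v) (po a b (X p.2) v) + ST + S) ≤
      ∑ p ∈ (univ : Finset (Fin N)).offDiag, (2 * H + 2 * (Loss a b / 3) + n * Real.log 2) := by
    refine Finset.sum_le_sum fun p hp => ?_
    have hne : X p.1 ≠ X p.2 := fun h => (Finset.mem_offDiag.1 hp).2.2 (hX h)
    have h2 := pair_ineq ha hb hD hne T hT (fun v hv => hTX v hv p.1) (fun v hv => hTX v hv p.2)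
    have h3 := hH p.1
    have h4 := hH p.2
    linarith
  rw [Finset.sum_add_distrib, Finset.sum_add_distrib, Finset.sum_const, Finset.sum_const,
    Finset.sum_const, nsmul_eq_mul, nsmul_eq_mul, nsmul_eq_mul, hcard, Finset.sum_comm] at h1
  have h2 : ∑ v ∈ wf (jj a b), ((N : ℝ) ^ 2 * (2 * s * Real.log (Nv v) -
      s ^ 2 * Real.log (fv v (jj a b))) / 24 - (N : ℝ) ^ 2 * (Real.log (fv v (jj a b)) / 6)) ≤
      ∑ v ∈ wf (jj a b), ∑ p ∈ (univ : Finset (Fin N)).offDiag,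
        ker (lam (jj a b) v) (po a b (X p.1) v) (po a b (X p.2) v) :=
    Finset.sum_le_sum fun v hv => energy_one hb X hv
  have e1 : ∑ v ∈ wf (jj a b), ((N : ℝ) ^ 2 * (2 * s * Real.log (Nv v) -
      s ^ 2 * Real.log (fv v (jj a b))) / 24 - (N : ℝ) ^ 2 * (Real.log (fv v (jj a b)) / 6)) =
      (N : ℝ) ^ 2 * (2 * s * fd (jj a b) - s ^ 2 * wd (jj a b)) / 24 -
        (N : ℝ) ^ 2 * (wd (jj a b) / 6) := by
    unfold fd wd
    rw [Finset.sum_sub_distrib, ← Finset.sum_div, ← Finset.mul_sum, Finset.sum_sub_distrib,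
      ← Finset.mul_sum, ← Finset.mul_sum, ← Finset.mul_sum, ← Finset.sum_div]
  rw [e1] at h2
  have h3 := sz_sum ha hb hD
  rw [← hn, ← hS] at h3
  have h4 := Loss_le ha hb hD
  rw [← hn] at h4
  have h5 : ((N : ℝ) ^ 2 - N) * ((ht (jj a b) - n * Real.log 6912) / 6) ≤
      ((N : ℝ) ^ 2 - N) * S := mul_le_mul_of_nonneg_left (by linarith) hN0
  have h6 : ((N : ℝ) ^ 2 - N) * (2 * H + 2 * (Loss a b / 3) + n * Real.log 2) ≤
      ((N : ℝ) ^ 2 - N) * (2 * H + 2 * ((ht (jj a b) - wd (jj a b) + n * c1) / 3) +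
        n * Real.log 2) := mul_le_mul_of_nonneg_left (by linarith) hN0
  have e2 : n * c2 = 2 / 3 * (n * c1) + n * Real.log 2 + n * Real.log 6912 / 6 := by
    unfold c2
    ring
  rw [e2]
  nlinarith

/-- places where the curve is a ramified twist of a curve of good reduction are not poles of `j` -/
theorem gain_disj {a b : K} (T : Finset (Pr K)) (hT : ∀ v ∈ T, GainAt a b v) (hD : dl a b ≠ 0) :
    Disjoint T (wf (jj a b)) := by
  rw [Finset.disjoint_left]
  intro v hv hw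
  obtain ⟨_, h1, h2, _⟩ := hT v hv
  have h3 := (mem_wf.1 hw).2.2
  have hd0 : 0 < fv v (dl a b) := (fv v).pos hD
  rw [w_jj, h1, ← h2, div_self hd0.ne', mul_one] at h3
  have := (fv_Na v).ofNat (w := fv v) 6912
  linarith

end Glob

section Pts

variable {K : Type} [Field K] [NumberField K] [DecidableEq K]

theorem negY_sw (a b x y : K) : (sw a b).toAffine.negY x y = -y := by
  simp [Affine.negY, sw]

/-- two points with the same first coordinate -/
theorem same_x {a b x y y' : K} (h : (sw a b).toAffine.Nonsingular x y)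
    (h' : (sw a b).toAffine.Nonsingular x y') :
    (Affine.Point.some x y h : SPt a b) = Affine.Point.some x y' h' ∨
      (Affine.Point.some x y h : SPt a b) + Affine.Point.some x y' h' = 0 := by
  have e1 : y ^ 2 = x ^ 3 + a * x + b := sw_eqn.1 h.1
  have e2 : y' ^ 2 = x ^ 3 + a * x + b := sw_eqn.1 h'.1
  have e3 : (y - y') * (y + y') = 0 := by linear_combination e1 - e2
  rcases mul_eq_zero.1 e3 with h3 | h3
  · left
    have : y = y' := by linear_combination h3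
    subst this
    rfl
  · right
    have : y = -y' := by linear_combination h3
    apply Affine.Point.add_of_Y_eq rfl
    rw [negY_sw]
    exact this

theorem smul_ne {A : Type} [AddCommGroup A] {P : A} {B : ℕ} (hP : ∀ m : ℕ, 1 ≤ m → m ≤ B → m • P ≠ 0)
    {k l : ℕ} (hk : k ≤ B) (hkl : l < k) : k • P ≠ l • P := by
  intro h
  apply hP (k - l) (by omega) (by omega)
  have e : k • P = (k - l) • P + l • P := by
    rw [← add_smul]
    congr 1
    omega
  rw [e] at h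
  simpa using h

/-- **The lower bound for one curve over a number field of any degree.** -/
theorem main_one {a b : K} (ha : a ≠ 0) (hb : b ≠ 0) (hD : dl a b ≠ 0) {θ : ℝ} (hθ : 0 < θ)
    (hf : θ * ht (jj a b) ≤ fd (jj a b)) (hw : wd (jj a b) ≤ ht (jj a b))
    (hw' : ht (jj a b) - wd (jj a b) ≤ θ ^ 2 / 48 * ht (jj a b))
    (hht : Module.finrank ℚ K * c2 ≤ θ ^ 2 / 96 * ht (jj a b)) (N : ℕ)
    (hN2 : 2 ≤ N) (hN : 16 ≤ θ ^ 2 * N) (T : Finset (Pr K)) (hT : ∀ v ∈ T, GainAt a b v)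
    (P : SPt a b) (hP : ∀ m : ℕ, 1 ≤ m → m ≤ 4 * N → m • P ≠ 0) :
    θ ^ 2 / 192 * ht (jj a b) + (∑ v ∈ T, Real.log (Nv v)) / 4 ≤
      4 * (N : ℝ) ^ 2 * chat P := by
  classical
  have hmult : ∀ i : Fin N, ∃ (x y : K) (h : (sw a b).toAffine.Nonsingular x y),
      ((i : ℕ) + 1) • P = Affine.Point.some x y h := fun i =>
    exists_coord _ (hP _ (by omega) (by have := i.2; omega))
  choose x y h hxy using hmult
  have h2P : ∀ i : Fin N, (2 * ((i : ℕ) + 1)) • P = (2 : ℕ) • (Affine.Point.some (x i) (y i) (h i) :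
      SPt a b) := by
    intro i
    rw [mul_smul, hxy i]
  have hy : ∀ i, y i ≠ 0 := by
    intro i h0
    apply hP (2 * ((i : ℕ) + 1)) (by omega) (by have := i.2; omega)
    rw [h2P i]
    exact dup_zero (h i) h0
  have hG : ∀ i, pG a b (x i) ≠ 0 := fun i => (dup_some (h i) (hy i)).1
  set X : Fin N → K := fun i => pF a b (x i) / pG a b (x i) with hX
  have hXP : ∀ i, ∃ (y' : K) (h' : (sw a b).toAffine.Nonsingular (X i) y'),
      (2 * ((i : ℕ) + 1)) • P = Affine.Point.some (X i) y' h' := by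
    intro i
    obtain ⟨_, y', h', e⟩ := dup_some (h i) (hy i)
    exact ⟨y', h', by rw [h2P i, e]⟩
  have hinj : Function.Injective X := by
    intro i j hij
    by_contra hne
    obtain ⟨y1, h1, e1⟩ := hXP i
    obtain ⟨y2, h2, e2⟩ := hXP j
    have hi := i.2
    have hj := j.2
    have hne' : (i : ℕ) ≠ j := fun h9 => hne (Fin.ext h9)
    generalize X i = z1 at h1 e1 hij
    subst hij
    rcases same_x h1 h2 with h3 | h3
    · rw [← e1, ← e2] at h3
      rcases lt_or_gt_of_ne hne' with h4 | h4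
      · exact smul_ne hP (k := 2 * ((j : ℕ) + 1)) (l := 2 * ((i : ℕ) + 1)) (by omega) (by omega)
          h3.symm
      · exact smul_ne hP (k := 2 * ((i : ℕ) + 1)) (l := 2 * ((j : ℕ) + 1)) (by omega) (by omega) h3
    · rw [← e1, ← e2, ← add_smul] at h3
      exact hP _ (by omega) (by omega) h3
  have hc := chat_spec (a := a) (b := b) hD
  have hc0 := hc.2.1 P
  have hbound : ∀ i, Psi a b (X i) ≤ 4 * (N : ℝ) ^ 2 * chat P + Loss a b / 3 := by
    intro i
    obtain ⟨y1, h1, e1⟩ := hXP i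
    have h2 := psi_le ha hb hD h1
    rw [← e1, q_nsmul hc.2.2.1] at h2
    have h3 : ((2 * ((i : ℕ) + 1) : ℕ) : ℝ) ^ 2 ≤ 4 * (N : ℝ) ^ 2 := by
      have h4 : ((2 * ((i : ℕ) + 1) : ℕ) : ℝ) ≤ 2 * N := by
        have := i.2
        exact_mod_cast (by omega : 2 * ((i : ℕ) + 1) ≤ 2 * N)
      have h5 : (0 : ℝ) ≤ ((2 * ((i : ℕ) + 1) : ℕ) : ℝ) := Nat.cast_nonneg _
      calc ((2 * ((i : ℕ) + 1) : ℕ) : ℝ) ^ 2 ≤ (2 * N) ^ 2 := pow_le_pow_left₀ h5 h4 2
        _ = _ := by ring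
    have h4 := mul_le_mul_of_nonneg_right h3 hc0
    linarith
  have hTX : ∀ v ∈ T, ∀ i, sz (fv v) a b * Nv v ≤ fv v (X i) := by
    intro v hv i
    obtain ⟨g2, g3, g4, k, hk, hk'⟩ := hT v hv
    exact gain (fv_Na v) g2 ha hb g3 g4 (Nv_one_lt v) (fun z hz => fv_zpow v hz) hk hk' (hy i)
      (sw_eqn.1 (h i).1)
  have hen := energy_all ha hb hD X hinj T (gain_disj T hT hD) hTX (s := θ) hbound
  set j := jj a b with hj
  set n : ℝ := (Module.finrank ℚ K : ℝ) with hn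
  set ST := ∑ v ∈ T, Real.log (Nv v) with hST
  set H := 4 * (N : ℝ) ^ 2 * chat P with hH
  have hST0 : 0 ≤ ST := Finset.sum_nonneg fun v _ => (log_Nv_pos v).le
  have hH0 : 0 ≤ H := by positivity
  have hht0 : 0 ≤ ht j := ht_nonneg j
  have hN0 : (2 : ℝ) ≤ N := by exact_mod_cast hN2
  have hNN : (0 : ℝ) < (N : ℝ) ^ 2 := by positivity
  -- lower bound of the left side
  have g1 : (N : ℝ) ^ 2 * (θ ^ 2 * ht j) / 24 ≤
      (N : ℝ) ^ 2 * (2 * θ * fd j - θ ^ 2 * wd j) / 24 := by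
    have : θ ^ 2 * ht j ≤ 2 * θ * fd j - θ ^ 2 * wd j := by
      have h5 : θ * (θ * ht j) ≤ θ * fd j := mul_le_mul_of_nonneg_left hf hθ.le
      have h6 : θ ^ 2 * wd j ≤ θ ^ 2 * ht j := mul_le_mul_of_nonneg_left hw (by positivity)
      nlinarith
    gcongr
  have g2 : (N : ℝ) ^ 2 / 2 * ST ≤ ((N : ℝ) ^ 2 - N) * ST := by
    apply mul_le_mul_of_nonneg_right _ hST0
    nlinarith
  have g3 : N * wd j / 6 ≤ (N : ℝ) ^ 2 * (θ ^ 2 / 96 * ht j) := by
    have h5 : N * wd j ≤ N * ht j := mul_le_mul_of_nonneg_left hw (by linarith)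
    have h6 : N * ht j * 16 ≤ N * ht j * (θ ^ 2 * N) :=
      mul_le_mul_of_nonneg_left hN (mul_nonneg (by linarith) hht0)
    nlinarith
  have g4 : ((N : ℝ) ^ 2 - N) * (2 * H + (ht j - wd j) / 2 + n * c2) ≤
      (N : ℝ) ^ 2 * (2 * H + θ ^ 2 / 96 * ht j + θ ^ 2 / 96 * ht j) := by
    have h5 : 2 * H + (ht j - wd j) / 2 + n * c2 ≤
        2 * H + θ ^ 2 / 96 * ht j + θ ^ 2 / 96 * ht j := by linarith
    have h6 : 0 ≤ 2 * H + θ ^ 2 / 96 * ht j + θ ^ 2 / 96 * ht j := by positivity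
    have h7 : 0 ≤ (N : ℝ) ^ 2 - N := by nlinarith
    calc ((N : ℝ) ^ 2 - N) * (2 * H + (ht j - wd j) / 2 + n * c2)
        ≤ ((N : ℝ) ^ 2 - N) * (2 * H + θ ^ 2 / 96 * ht j + θ ^ 2 / 96 * ht j) :=
          mul_le_mul_of_nonneg_left h5 h7
      _ ≤ _ := mul_le_mul_of_nonneg_right (by linarith) h6
  have g5 : (N : ℝ) ^ 2 * (θ ^ 2 * ht j / 24 + ST / 2) ≤
      (N : ℝ) ^ 2 * (θ ^ 2 / 96 * ht j + (2 * H + θ ^ 2 / 96 * ht j + θ ^ 2 / 96 * ht j)) := by
    nlinarith
  have g6 := le_of_mul_le_mul_left g5 hNN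
  linarith

end Pts

end Pool.Agent.Q237.LS
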