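import Mathlib
import Pool.Agent.Q237.LS.Ext
import Pool.Agent.Y733.LS.Fin

/-!
# The lower bound and the bound for the torsion, for single curves and in extensions
-/

set_option autoImplicit false
set_option linter.unusedSectionVars false

namespace Pool.Agent.Q237.LS

open NumberField IsDedekindDomain Finset Pool.Agent.H691R3 Pool.Agent.W223.AK
open Pool.Agent.TH942 Pool.Agent.TH910.LS Pool.Agent.Y733.LS Pool.Agent.Y733.UD WeierstrassCurve

/-- the constant of the largeness condition -/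
noncomputable def c5 : ℝ := c2 + 1 + C4

theorem C4_nonneg : 0 ≤ C4 :=
  add_nonneg (Real.log_nonneg (by norm_num)) (Real.log_nonneg (by norm_num))

theorem c5_pos : 0 < c5 := by
  unfold c5
  linarith [c2_nonneg, C4_nonneg]

/-- the conclusion for the number field `L` and the invariant `j`: with the constants `c` and `B`,
the lower bound of Lang and Silverman and the bound for the orders of the torsion points -/
def LT (c B : ℝ) {L : Type} [Field L] [NumberField L] [DecidableEq L] (j : L) : Prop :=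
  ∀ a b : L, dl a b ≠ 0 → jj a b = j →
    (∀ Q : SPt a b, IsOfFinAddOrder Q → (addOrderOf Q : ℝ) ≤ B) ∧
    (∀ S : Finset (Pr L), (∀ v ∈ S, BadAt a b v) →
      ∀ (g : ℕ) (M : Matrix (Fin g) (Fin g) ℤ), (M.map (Int.cast : ℤ → ℝ)).PosDef →
      ∀ P : Fin g → SPt a b, ¬ IsOfFinAddOrder P →
        c * (Module.finrank ℚ L + ht j + ∑ v ∈ S, Real.log (Nv v)) ≤ chatM M P)

theorem LT_mono {c c' B B' : ℝ} (hc : c' ≤ c) (hB : B ≤ B') {L : Type} [Field L]
    [NumberField L] [DecidableEq L] {j : L} (h : LT c B j) : LT c' B' j := by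
  intro a b hD hj
  obtain ⟨h1, h2⟩ := h a b hD hj
  refine ⟨fun Q hQ => (h1 Q hQ).trans hB, fun S hS g M hM P hP => ?_⟩
  refine le_trans (mul_le_mul_of_nonneg_right hc ?_) (h2 S hS g M hM P hP)
  have h4 : 0 ≤ ∑ v ∈ S, Real.log (Nv v) := Finset.sum_nonneg fun v _ => (log_Nv_pos v).le
  have h5 := ht_nonneg j
  positivity

/-- **The theorem for a single invariant over a number field of any degree.** -/
theorem LT_of {L : Type} [Field L] [NumberField L] [DecidableEq L] {j : L} (h0 : j ≠ 0)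
    (h1 : j ≠ 1728) {θ : ℝ} (hθ : 0 < θ) (hθ1 : θ ≤ 1) (hf : θ * ht j ≤ fd j)
    (hw' : ht j - wd j ≤ θ ^ 2 / 48 * ht j)
    (hht : Module.finrank ℚ L * c5 ≤ θ ^ 2 / 96 * ht j) :
    LT (θ ^ 6 / 1110000) (68 / θ ^ 2) j := by
  intro a b hD hj
  have ha : a ≠ 0 := by
    rintro rfl
    apply h0
    rw [← hj]
    unfold jj
    simp
  have hb : b ≠ 0 := by
    rintro rfl
    apply h1
    have h3 := jj_sub a 0 hD
    rw [hj] at h3
    have h4 : j - 1728 = 0 := by rw [h3]; simp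
    linear_combination h4
  subst hj
  set j := jj a b with hj
  have hn : (0 : ℝ) < Module.finrank ℚ L := by exact_mod_cast Module.finrank_pos
  set n : ℝ := (Module.finrank ℚ L : ℝ) with hndef
  have hwd := wd_le_ht j
  have hc2 := c2_nonneg
  have hC4 := C4_nonneg
  have hht2 : n * c2 ≤ θ ^ 2 / 96 * ht j := by
    refine le_trans ?_ hht
    apply mul_le_mul_of_nonneg_left _ hn.le
    unfold c5
    linarith
  have hθ2 : 0 < θ ^ 2 := by positivity
  have hθ21 : θ ^ 2 ≤ 1 := pow_le_one₀ hθ.le hθ1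
  have hhtpos : 0 < ht j := by
    have h3 : 0 < n * c5 := mul_pos hn c5_pos
    have h4 : 0 < θ ^ 2 / 96 * ht j := lt_of_lt_of_le h3 hht
    by_contra hcon
    push Not at hcon
    have : θ ^ 2 / 96 * ht j ≤ 0 := mul_nonpos_of_nonneg_of_nonpos (by positivity) hcon
    linarith
  have hht3 : n * (1 + C4) ≤ ht j := by
    have h3 : n * (1 + C4) ≤ n * c5 := by
      apply mul_le_mul_of_nonneg_left _ hn.le
      unfold c5
      linarith
    nlinarith
  -- the number of points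
  set N : ℕ := ⌈16 / θ ^ 2⌉₊ with hN
  have hN1 : 16 / θ ^ 2 ≤ N := Nat.le_ceil _
  have hN2 : (N : ℝ) < 16 / θ ^ 2 + 1 := Nat.ceil_lt_add_one (by positivity)
  have h16 : 16 ≤ θ ^ 2 * N := by
    rw [div_le_iff₀ hθ2] at hN1
    linarith
  have hN3 : (N : ℝ) * θ ^ 2 ≤ 17 := by
    have h3 : (N : ℝ) * θ ^ 2 ≤ (16 / θ ^ 2 + 1) * θ ^ 2 :=
      mul_le_mul_of_nonneg_right hN2.le hθ2.le
    have h4 : (16 / θ ^ 2 + 1) * θ ^ 2 = 16 + θ ^ 2 := by field_simp
    linarith
  have hN16 : (16 : ℝ) ≤ N := by nlinarith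
  have hNge : 2 ≤ N := by
    have : (2 : ℝ) ≤ N := by linarith
    exact_mod_cast this
  -- the bound for one point
  have key : ∀ (T : Finset (Pr L)), (∀ v ∈ T, GainAt a b v) → ∀ P : SPt a b,
      (∀ m : ℕ, 1 ≤ m → m ≤ 4 * N → m • P ≠ 0) →
      θ ^ 2 / 192 * ht j + (∑ v ∈ T, Real.log (Nv v)) / 4 ≤ 4 * (N : ℝ) ^ 2 * chat P :=
    fun T hT P hP => main_one ha hb hD hθ hf hwd hw' hht2 N hNge h16 T hT P hP
  have hB4 : ((4 * N : ℕ) : ℝ) ≤ 68 / θ ^ 2 := by
    rw [le_div_iff₀ hθ2]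
    push_cast
    linarith
  constructor
  · intro Q hQ
    refine le_trans ?_ hB4
    by_contra hcon
    push Not at hcon
    have hcon' : 4 * N < addOrderOf Q := by exact_mod_cast hcon
    have h3 := key ∅ (by simp) Q (fun m hm1 hm2 h0 => by
      have := addOrderOf_le_of_nsmul_eq_zero (by omega) h0
      omega)
    rw [tors_zero (a := a) (b := b) hD hQ, Finset.sum_empty] at h3
    have : 0 < θ ^ 2 / 192 * ht j := by positivity
    linarith
  · intro S hS g M hM P hP
    obtain ⟨Q, _, hQ, hQ'⟩ := reduction (a := a) (b := b) hD M hM P hP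
    refine le_trans ?_ hQ'
    obtain ⟨T, hT, hTS⟩ := bad_sum ha hb hD S hS
    have hQm : ∀ m : ℕ, 1 ≤ m → m ≤ 4 * N → m • Q ≠ 0 := by
      intro m hm1 _ h0
      exact hQ (isOfFinAddOrder_iff_nsmul_eq_zero.2 ⟨m, hm1, h0⟩)
    have h3 := key T hT Q hQm
    have hT0 : 0 ≤ ∑ v ∈ T, Real.log (Nv v) := Finset.sum_nonneg fun v _ => (log_Nv_pos v).le
    have hC4' : Real.log 6 + Real.log 1729 = C4 := rfl
    rw [hC4', ← hj, ← hndef] at hTS
    generalize (∑ v ∈ T, Real.log (Nv v)) = sT at h3 hT0 hTS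
    generalize (∑ v ∈ S, Real.log (Nv v)) = sS at hTS ⊢
    have h4 : n + ht j + sS ≤ 5 * ht j + sT := by linarith
    have hN0 : (0 : ℝ) < N := by linarith
    -- the constant
    have hc : θ ^ 6 / 1110000 ≤ θ ^ 2 / (3840 * (N : ℝ) ^ 2) := by
      rw [div_le_div_iff₀ (by norm_num) (by positivity)]
      have h5 : ((N : ℝ) * θ ^ 2) ^ 2 ≤ 17 ^ 2 := pow_le_pow_left₀ (by positivity) hN3 2
      have h6 : θ ^ 6 * (3840 * (N : ℝ) ^ 2) = θ ^ 2 * 3840 * ((N : ℝ) * θ ^ 2) ^ 2 := by ring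
      rw [h6]
      nlinarith
    have h5 : 0 ≤ 5 * ht j + sT := by positivity
    have hcpos : (0 : ℝ) ≤ θ ^ 6 / 1110000 := by positivity
    calc θ ^ 6 / 1110000 * (n + ht j + sS) ≤ θ ^ 6 / 1110000 * (5 * ht j + sT) :=
          mul_le_mul_of_nonneg_left h4 hcpos
      _ ≤ θ ^ 2 / (3840 * (N : ℝ) ^ 2) * (5 * ht j + sT) :=
          mul_le_mul_of_nonneg_right hc h5
      _ ≤ (θ ^ 2 / 192 * ht j + sT / 4) / (4 * (N : ℝ) ^ 2) := by
          rw [div_mul_eq_mul_div, div_le_div_iff₀ (by positivity) (by positivity)]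
          have h6 : θ ^ 2 * sT ≤ 1 * sT := mul_le_mul_of_nonneg_right hθ21 hT0
          have h7 : 0 ≤ θ ^ 2 * ht j := by positivity
          have h8 : 0 < (N : ℝ) ^ 2 := by positivity
          have h9 : θ ^ 2 * (5 * ht j + sT) * 4 ≤ (θ ^ 2 / 192 * ht j + sT / 4) * 3840 := by
            nlinarith
          calc θ ^ 2 * (5 * ht j + sT) * (4 * (N : ℝ) ^ 2)
              = (θ ^ 2 * (5 * ht j + sT) * 4) * (N : ℝ) ^ 2 := by ring
            _ ≤ ((θ ^ 2 / 192 * ht j + sT / 4) * 3840) * (N : ℝ) ^ 2 :=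
                mul_le_mul_of_nonneg_right h9 h8.le
            _ = _ := by ring
      _ ≤ chat Q := by
          rw [div_le_iff₀ (by positivity)]
          linarith

section Ext

variable {K : Type} [Field K] [NumberField K] {L : Type} [Field L] [NumberField L] [Algebra K L]

theorem finrank_mul : (Module.finrank ℚ L : ℝ) = Module.finrank K L * Module.finrank ℚ K := by
  have h := Module.finrank_mul_finrank ℚ K L
  rw [← h]
  push_cast
  ring

/-- **The theorem for an invariant in `K` and the curves over an extension `L`.** -/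
theorem LT_ext [DecidableEq L] {j : K} (h0 : j ≠ 0) (h1 : j ≠ 1728) {θ κ : ℝ} (hθ : 0 < θ)
    (hθ1 : θ ≤ 1) (hf : (θ + κ) * ht j ≤ fd j) (hw' : ht j - wd j ≤ θ ^ 2 / 48 * ht j)
    (hht : Module.finrank ℚ K * c5 ≤ θ ^ 2 / 96 * ht j)
    (hL : Real.log |(discr L : ℝ)| ≤ Module.finrank K L * (Real.log |(discr K : ℝ)| +
      κ * ht j)) :
    LT (θ ^ 6 / 1110000) (68 / θ ^ 2) (algebraMap K L j) := by
  have hm : (0 : ℝ) < Module.finrank K L := by exact_mod_cast Module.finrank_pos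
  have e1 := ht_ext (L := L) j
  have e2 := wd_ext (L := L) j
  have e3 := fd_ext (L := L) j
  refine LT_of ?_ ?_ hθ hθ1 ?_ ?_ ?_
  · rwa [Ne, FaithfulSMul.algebraMap_eq_zero_iff]
  · intro h
    apply h1
    apply (algebraMap K L).injective
    rw [h]
    exact (map_ofNat (algebraMap K L) 1728).symm
  · rw [e1]
    refine le_trans ?_ e3
    have h5 : Module.finrank K L * ((θ + κ) * ht j) ≤ Module.finrank K L * fd j :=
      mul_le_mul_of_nonneg_left hf hm.le
    linarith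
  · rw [e1, e2]
    have h5 := mul_le_mul_of_nonneg_left hw' hm.le
    linarith
  · rw [e1, finrank_mul (K := K)]
    have h5 := mul_le_mul_of_nonneg_left hht hm.le
    linarith

end Ext

/-- the conclusion in all extensions with a root discriminant which is not large -/
def UT (κ c B : ℝ) {K : Type} [Field K] [NumberField K] (j : K) : Prop :=
  ∀ (L : Type) [Field L] [NumberField L] [Algebra K L] [DecidableEq L],
    Real.log |(discr L : ℝ)| ≤ Module.finrank K L * (Real.log |(discr K : ℝ)| + κ * ht j) →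
    LT c B (algebraMap K L j)

theorem UT_of {K : Type} [Field K] [NumberField K] {j : K} (h0 : j ≠ 0) (h1 : j ≠ 1728) {κ : ℝ}
    (hκ0 : 0 ≤ κ) (hκ : κ < 1) (hsp : (1 - (1 - κ) ^ 2 / 100) * ht j ≤ sp j)
    (hht : Module.finrank ℚ K * (98 * c5 / (1 - κ) ^ 2) ≤ ht j) :
    UT κ ((1 - κ) ^ 6 / 1200000) (70 / (1 - κ) ^ 2) j := by
  intro L _ _ _ _ hL
  set t := 1 - κ with ht'
  have ht0 : 0 < t := by linarith
  have ht1 : t ≤ 1 := by linarith
  set θ := t - t ^ 2 / 100 with hθdef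
  have hθ99 : 99 / 100 * t ≤ θ := by
    have : t ^ 2 ≤ t := by nlinarith
    linarith
  have hθt : θ ≤ t := by
    have : 0 ≤ t ^ 2 / 100 := by positivity
    linarith
  have hθ0 : 0 < θ := by nlinarith
  obtain ⟨s1, s2⟩ := sp_sum j
  have hh := ht_nonneg j
  have hθ2 : (99 / 100 * t) ^ 2 ≤ θ ^ 2 := pow_le_pow_left₀ (by positivity) hθ99 2
  have h3 : LT (θ ^ 6 / 1110000) (68 / θ ^ 2) (algebraMap K L j) := by
    refine LT_ext h0 h1 hθ0 (hθt.trans ht1) (κ := κ) ?_ ?_ ?_ hL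
    · have e : θ + κ = 1 - t ^ 2 / 100 := by rw [hθdef, ht']; ring
      rw [e]
      linarith
    · have h5 : ht j - wd j ≤ t ^ 2 / 100 * ht j := by linarith
      refine h5.trans (mul_le_mul_of_nonneg_right ?_ hh)
      nlinarith [pow_pos ht0 2]
    · have h5 := mul_le_mul_of_nonneg_left hht (by positivity : (0 : ℝ) ≤ t ^ 2 / 98)
      have e : t ^ 2 / 98 * (Module.finrank ℚ K * (98 * c5 / t ^ 2)) =
          Module.finrank ℚ K * c5 := by
        field_simp
      rw [e] at h5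
      refine h5.trans (mul_le_mul_of_nonneg_right ?_ hh)
      nlinarith [pow_pos ht0 2]
  refine LT_mono ?_ ?_ h3
  · have h6 : (99 / 100 * t) ^ 6 ≤ θ ^ 6 := pow_le_pow_left₀ (by positivity) hθ99 6
    have e : (99 / 100 * t) ^ 6 = (99 / 100 : ℝ) ^ 6 * t ^ 6 := by ring
    rw [e] at h6
    have h7 : 0 < t ^ 6 := by positivity
    rw [div_le_div_iff₀ (by norm_num) (by norm_num)]
    norm_num at h6 ⊢
    nlinarith
  · rw [div_le_div_iff₀ (by positivity) (by positivity)]
    nlinarith [pow_pos ht0 2]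

/-- **the exceptional invariants** -/
theorem exc_count2 {κ ε : ℝ} (hκ0 : 0 ≤ κ) (hκ : κ < 1) (hε : 0 < ε) : ∃ A : ℝ, 0 ≤ A ∧
    ∀ (K : Type) [Field K] [NumberField K] (X : ℝ) (E : Finset K), 0 ≤ X →
      (∀ j ∈ E, j ≠ 0 ∧ j ≠ 1728 ∧ ht j ≤ X ∧
        ¬ UT κ ((1 - κ) ^ 6 / 1200000) (70 / (1 - κ) ^ 2) j) →
        (E.card : ℝ) ≤ Real.exp (Module.finrank ℚ K * A +
          (2 - (1 - κ) ^ 2 / 200 + ε) * X) := by
  classical
  obtain ⟨A1, hA1, hall⟩ := all_card (ε := 1) one_pos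
  obtain ⟨A2, hA2, hspc⟩ := sp_count hε
  have ht0 : 0 < 1 - κ := by linarith
  set L0 : ℝ := 98 * c5 / (1 - κ) ^ 2 with hL0
  have hL00 : 0 ≤ L0 := by
    have := c5_pos
    positivity
  set η : ℝ := (1 - κ) ^ 2 / 100 with hη
  have hη0 : 0 < η := by positivity
  have hη1 : η ≤ 1 := by
    have : (1 - κ) ^ 2 ≤ 1 := pow_le_one₀ ht0.le (by linarith)
    rw [hη]
    linarith
  have hl3 : 0 ≤ Real.log 3 := Real.log_nonneg (by norm_num)
  refine ⟨Real.log 3 + A1 + 3 * L0 + A2, by positivity, ?_⟩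
  intro K _ _ X E hX hE
  set n := Module.finrank ℚ K with hn
  have hn1 : (1 : ℝ) ≤ n := by exact_mod_cast Module.finrank_pos (R := ℚ) (M := K)
  have hn0 : (0 : ℝ) ≤ n := by linarith
  set E2 := E.filter fun j => j ≠ -1 ∧ ht j ≤ n * L0 with hE2
  set E3 := E.filter fun j => j ≠ -1 ∧ sp j ≤ (1 - η) * ht j with hE3
  have hsub : E ⊆ (E2 ∪ E3) ∪ {-1} := by
    intro j hj
    rw [Finset.mem_union, Finset.mem_singleton, Finset.mem_union]
    by_cases h1 : j = -1
    · exact Or.inr h1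
    · left
      obtain ⟨h2, h3, h4, h5⟩ := hE j hj
      by_contra hcon
      push Not at hcon
      obtain ⟨c1, c2⟩ := hcon
      rw [hE2, Finset.mem_filter] at c1
      rw [hE3, Finset.mem_filter] at c2
      push Not at c1 c2
      exact h5 (UT_of h2 h3 hκ0 hκ (c2 hj h1).le (c1 hj h1).le)
  have hPt : ∀ j ∈ E, j ≠ -1 → Pt j := by
    intro j hj h1
    refine ⟨(hE j hj).1, fun h2 => h1 ?_⟩
    linear_combination h2
  have b2 : (E2.card : ℝ) ≤ Real.exp (n * (A1 + 3 * L0)) := by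
    refine (hall K (n * L0) E2 ?_).trans (le_of_eq (by congr 1; ring))
    intro j hj
    rw [hE2, Finset.mem_filter] at hj
    exact ⟨hPt j hj.1 hj.2.1, hj.2.2⟩
  have b3 : (E3.card : ℝ) ≤ Real.exp (n * A2 + (2 - η / 2 + ε) * X) := by
    refine hspc K η X E3 (by linarith) ?_
    intro j hj
    rw [hE3, Finset.mem_filter] at hj
    exact ⟨hPt j hj.1 hj.2.1, (hE j hj.1).2.2.1, hj.2.2⟩
  have hcard : (E.card : ℝ) ≤ E2.card + E3.card + 1 := by
    have h1 := Finset.card_le_card hsub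
    have h2 := Finset.card_union_le (E2 ∪ E3) ({-1} : Finset K)
    have h3 := Finset.card_union_le E2 E3
    rw [Finset.card_singleton] at h2
    exact_mod_cast (by omega : E.card ≤ E2.card + E3.card + 1)
  have e200 : 2 - (1 - κ) ^ 2 / 200 + ε = 2 - η / 2 + ε := by rw [hη]; ring
  rw [e200]
  have hcoef : 0 ≤ 2 - η / 2 + ε := by linarith
  set M0 : ℝ := n * (A1 + 3 * L0 + A2) + (2 - η / 2 + ε) * X with hM0
  have m2 : Real.exp (n * (A1 + 3 * L0)) ≤ Real.exp M0 := by
    apply Real.exp_le_exp.2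
    have h1 : 0 ≤ (2 - η / 2 + ε) * X := mul_nonneg hcoef hX
    have h2 : 0 ≤ n * A2 := by positivity
    rw [hM0]
    nlinarith
  have m3 : Real.exp (n * A2 + (2 - η / 2 + ε) * X) ≤ Real.exp M0 := by
    apply Real.exp_le_exp.2
    have h2 : 0 ≤ n * (A1 + 3 * L0) := by positivity
    rw [hM0]
    nlinarith
  have m1 : 1 ≤ Real.exp M0 := by
    apply Real.one_le_exp
    have h1 : 0 ≤ (2 - η / 2 + ε) * X := mul_nonneg hcoef hX
    rw [hM0]
    positivity
  have hfin : (E.card : ℝ) ≤ 3 * Real.exp M0 := by linarith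
  refine hfin.trans ?_
  have h4 : (3 : ℝ) ≤ Real.exp (n * Real.log 3) := by
    calc (3 : ℝ) = Real.exp (Real.log 3) := (Real.exp_log (by norm_num)).symm
      _ ≤ Real.exp (n * Real.log 3) := Real.exp_le_exp.2 (by nlinarith)
  calc 3 * Real.exp M0 ≤ Real.exp (n * Real.log 3) * Real.exp M0 :=
        mul_le_mul_of_nonneg_right h4 (Real.exp_pos _).le
    _ = _ := by
        rw [← Real.exp_add, hM0]
        congr 1
        ring

end Pool.Agent.Q237.LS
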