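import Mathlib
import Pool.Agent.Q237.LS.Fin

/-!
# Counting the invariants: from logarithmic bounds to proportions
-/

set_option autoImplicit false
set_option linter.unusedSectionVars false

namespace Pool.Agent.Q237.LS

open NumberField IsDedekindDomain Finset Pool.Agent.H691R3 Pool.Agent.W223.AK
open Pool.Agent.TH942 Pool.Agent.TH910.LS Pool.Agent.Y733.LS Pool.Agent.Y733.UD WeierstrassCurve

/-- the root discriminant -/
noncomputable def rDisc (K : Type) [Field K] [NumberField K] : ℝ :=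
  |(NumberField.discr K : ℝ)| ^ (1 / (Module.finrank ℚ K : ℝ))

/-- the invariants of absolute height at most `B` -/
def InvS (K : Type) [Field K] [NumberField K] (B : ℝ) : Set K :=
  {j | j ≠ 0 ∧ j ≠ 1728 ∧ Height.logHeight₁ j ≤ Module.finrank ℚ K * Real.log B}

section Aux

variable {K : Type} [Field K] [NumberField K]

theorem n_pos : (0 : ℝ) < Module.finrank ℚ K := by
  linarith [finrank_one_le K]

theorem rDisc_eq : rDisc K = Real.exp (rd K) := by
  unfold rDisc rd
  have h : (0 : ℝ) < |(NumberField.discr K : ℝ)| := by linarith [one_le_disc K]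
  rw [Real.rpow_def_of_pos h]
  congr 1
  ring

theorem ht_log (j : K) : Height.logHeight₁ j = ht j := by
  rw [logHeight_eq, ht_eq_Sa]

theorem ncard_le {S : Set K} {b : ℝ} (h : ∀ E : Finset K, (E : Set K) ⊆ S → (E.card : ℝ) ≤ b) :
    S.Finite ∧ (S.ncard : ℝ) ≤ b := by
  have hfin : S.Finite := by
    by_contra hinf
    obtain ⟨t, ht, hcard⟩ := Set.Infinite.exists_subset_card_eq hinf (⌊b⌋₊ + 1)
    have h1 := h t ht
    rw [hcard] at h1
    have h2 := Nat.lt_floor_add_one b
    push_cast at h1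
    linarith
  refine ⟨hfin, ?_⟩
  have h1 := h hfin.toFinset (by simp)
  rwa [← Set.ncard_eq_toFinset_card S hfin] at h1

theorem le_ncard {S : Set K} (hS : S.Finite) {b : ℝ} {E : Finset K} (hE : (E : Set K) ⊆ S)
    (h : b ≤ E.card) : b ≤ (S.ncard : ℝ) := by
  refine h.trans ?_
  rw [← Set.ncard_coe_finset]
  exact_mod_cast Set.ncard_le_ncard hE hS

theorem pow_form {n : ℕ} {C B Q α β : ℝ} (hC : 0 < C) (hB : 0 < B) (hQ : 0 < Q) :
    (C * B ^ α * Q ^ β) ^ n = Real.exp (n * (Real.log C + α * Real.log B + β * Real.log Q)) := by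
  rw [Real.exp_nat_mul, Real.exp_add, Real.exp_add, Real.exp_log hC, Real.rpow_def_of_pos hB,
    Real.rpow_def_of_pos hQ, mul_comm α, mul_comm β]

theorem pow_form2 {n : ℕ} {A B α : ℝ} (hB : 0 < B) :
    (Real.exp A * B ^ α) ^ n = Real.exp (n * (A + α * Real.log B)) := by
  rw [Real.exp_nat_mul, Real.exp_add, Real.rpow_def_of_pos hB, mul_comm α]

theorem fin_InvS (B : ℝ) : (InvS K B).Finite := by
  refine (NumberField.finite_setOfPred_logHeight₁_le (K := K)
    (Module.finrank ℚ K * Real.log B)).subset ?_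
  intro j hj
  exact hj.2.2

theorem one_mem {B : ℝ} (hB : 1 ≤ B) : (1 : K) ∈ InvS K B := by
  refine ⟨one_ne_zero, by norm_num, ?_⟩
  rw [Height.logHeight₁_one]
  exact mul_nonneg n_pos.le (Real.log_nonneg hB)

theorem one_le_ncard {B : ℝ} (hB : 1 ≤ B) : (1 : ℝ) ≤ ((InvS K B).ncard : ℝ) := by
  have h := (Set.ncard_pos (fin_InvS (K := K) B)).2 ⟨1, one_mem hB⟩
  exact_mod_cast h

theorem sqrt_rDisc : √(rDisc K) = Real.exp (rd K / 2) := by
  rw [rDisc_eq, Real.exp_half]

/-- the condition on the root discriminant -/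
theorem rDisc_le {L : Type} [Field L] [NumberField L] [Algebra K L] {κ : ℝ} {j : K}
    (h : rDisc L ≤ rDisc K * Real.exp (κ * (Height.logHeight₁ j / Module.finrank ℚ K))) :
    Real.log |(discr L : ℝ)| ≤ Module.finrank K L * (Real.log |(discr K : ℝ)| + κ * ht j) := by
  rw [rDisc_eq, rDisc_eq, ← Real.exp_add, Real.exp_le_exp, ht_log] at h
  unfold rd at h
  have hnL : (0 : ℝ) < Module.finrank ℚ L := n_pos
  have hnK : (0 : ℝ) < Module.finrank ℚ K := n_pos
  have hm := finrank_mul (K := K) (L := L)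
  rw [div_le_iff₀ hnL, hm] at h
  refine h.trans (le_of_eq ?_)
  field_simp

end Aux

/-- logarithmic form of the lower bound for the number of all invariants -/
theorem inv_log {ε : ℝ} (hε : 0 < ε) : ∃ A : ℝ, 0 ≤ A ∧
    ∀ (K : Type) [Field K] [NumberField K] (B : ℝ), 16 * √(rDisc K) ≤ B →
      Real.exp (Module.finrank ℚ K * ((2 - ε) * Real.log B - (2 + ε) * rd K - A)) ≤
        ((InvS K B).ncard : ℝ) := by
  classical
  set ε1 : ℝ := min (ε / 4) 1 with hε1
  have h1 : 0 < ε1 := lt_min (by positivity) one_pos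
  have h2 : ε1 ≤ 1 := min_le_right _ _
  have h3 : 4 * ε1 ≤ ε := by
    have := min_le_left (ε / 4) 1
    rw [← hε1] at this
    linarith
  obtain ⟨A, hA, h⟩ := low_count h1 h2
  have hl2 : 0 ≤ Real.log 2 := Real.log_nonneg (by norm_num)
  refine ⟨A + Real.log 2, by positivity, ?_⟩
  intro K _ _ B hBK
  have hn := n_pos (K := K)
  have hn1 := finrank_one_le K
  have hrd := rd_nonneg K
  have hl16 : 0 ≤ Real.log 16 := Real.log_nonneg (by norm_num)
  have hB : 0 < B := by
    rw [sqrt_rDisc] at hBK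
    have : 0 < 16 * Real.exp (rd K / 2) := by positivity
    linarith
  have hl : Real.log 16 + rd K / 2 ≤ Real.log B := by
    rw [sqrt_rDisc] at hBK
    have h1 := Real.log_le_log (by positivity) hBK
    rwa [Real.log_mul (by norm_num) (Real.exp_pos _).ne', Real.log_exp] at h1
  have hl8 : Real.log 8 ≤ Real.log 16 := Real.log_le_log (by norm_num) (by norm_num)
  have hB1 : 1 ≤ B := by
    have : 0 ≤ Real.log B := by linarith
    by_contra hcon
    push Not at hcon
    have := Real.log_neg hB hcon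
    linarith
  obtain ⟨E, hE, hcard⟩ := h K (Real.log B) (by linarith)
  have hsub : ((E.erase 1728 : Finset K) : Set K) ⊆ InvS K B := by
    intro j hj
    rw [Finset.mem_coe, Finset.mem_erase] at hj
    obtain ⟨h4, h5⟩ := hE j hj.2
    exact ⟨h4.1, hj.1, by rw [ht_log]; exact h5⟩
  have hc := le_ncard (fin_InvS B) hsub le_rfl
  have hc1 : (E.card : ℝ) ≤ ((E.erase 1728).card : ℝ) + 1 := by
    have := Finset.pred_card_le_card_erase (s := E) (a := (1728 : K))
    exact_mod_cast (by omega : E.card ≤ (E.erase 1728).card + 1)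
  have hc2 := one_le_ncard (K := K) hB1
  have h5 : Real.exp (Module.finrank ℚ K * ((2 - 4 * ε1) * Real.log B - (2 + ε1) * rd K - A)) ≤
      2 * ((InvS K B).ncard : ℝ) := by linarith
  have h6 : Real.exp (Module.finrank ℚ K * ((2 - ε) * Real.log B - (2 + ε) * rd K -
      (A + Real.log 2))) * 2 ≤
      Real.exp (Module.finrank ℚ K * ((2 - 4 * ε1) * Real.log B - (2 + ε1) * rd K - A)) := by
    have e2 : (2 : ℝ) = Real.exp (Real.log 2) := (Real.exp_log (by norm_num)).symm
    nth_rw 4 [e2]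
    rw [← Real.exp_add]
    apply Real.exp_le_exp.2
    have h7 : (2 - ε) * Real.log B ≤ (2 - 4 * ε1) * Real.log B :=
      mul_le_mul_of_nonneg_right (by linarith) (by linarith)
    have h8 : (2 + ε1) * rd K ≤ (2 + ε) * rd K := mul_le_mul_of_nonneg_right (by linarith) hrd
    have h9 : Module.finrank ℚ K * ((2 - ε) * Real.log B - (2 + ε) * rd K) ≤
        Module.finrank ℚ K * ((2 - 4 * ε1) * Real.log B - (2 + ε1) * rd K) :=
      mul_le_mul_of_nonneg_left (by linarith) hn.le
    nlinarith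
  linarith

/-- a property of the elements of the number fields -/
abbrev Prp := (K : Type) → [Field K] → [NumberField K] → K → Prop

/-- the exceptional invariants -/
def ExcS (R : Prp) (K : Type) [Field K] [NumberField K] (B : ℝ) : Set K :=
  {j ∈ InvS K B | ¬ R K j}

theorem exc_le_inv (R : Prp) (K : Type) [Field K] [NumberField K] (B : ℝ) :
    ((ExcS R K B).ncard : ℝ) ≤ ((InvS K B).ncard : ℝ) := by
  have h : ExcS R K B ⊆ InvS K B := fun x hx => hx.1
  exact_mod_cast Set.ncard_le_ncard h (fin_InvS B)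

/-- **from the logarithmic count to the count and the proportion** -/
theorem counts (R : Prp) {β ε A1 : ℝ} (hβ0 : 0 ≤ β) (hβ : β ≤ 1) (hε : 0 < ε) (hA1 : 0 ≤ A1)
    (h1 : ∀ (K : Type) [Field K] [NumberField K] (B : ℝ), 1 ≤ B → ((ExcS R K B).ncard : ℝ) ≤
      Real.exp (Module.finrank ℚ K * (A1 + (2 - β + ε / 2) * Real.log B))) :
    ∃ C : ℝ, 0 < C ∧ ∀ (K : Type) [Field K] [NumberField K] (B : ℝ), 1 ≤ B →
      (InvS K B).Finite ∧
      ((ExcS R K B).ncard : ℝ) ≤ (C * B ^ (2 - β + ε)) ^ Module.finrank ℚ K ∧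
      ((ExcS R K B).ncard : ℝ) ≤ (C * B ^ (-β + ε) * rDisc K ^ (2 + ε)) ^ Module.finrank ℚ K *
        ((InvS K B).ncard : ℝ) := by
  obtain ⟨A2, hA2, h2⟩ := inv_log (half_pos hε)
  have hl16 : 0 ≤ Real.log 16 := Real.log_nonneg (by norm_num)
  set A := A1 + A2 + Real.log 16 with hA
  refine ⟨Real.exp A, Real.exp_pos _, ?_⟩
  intro K _ _ B hB
  have hB0 : 0 < B := by linarith
  have hlB : 0 ≤ Real.log B := Real.log_nonneg hB
  have hn := n_pos (K := K)
  have hrd := rd_nonneg K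
  have hδ : 0 < rDisc K := by rw [rDisc_eq]; exact Real.exp_pos _
  refine ⟨fin_InvS B, ?_, ?_⟩
  · refine (h1 K B hB).trans ?_
    rw [pow_form2 hB0]
    apply Real.exp_le_exp.2
    apply mul_le_mul_of_nonneg_left _ hn.le
    nlinarith
  · rw [pow_form (Real.exp_pos _) hB0 hδ, Real.log_exp, rDisc_eq, Real.log_exp]
    rcases le_or_gt (16 * √(rDisc K)) B with hBK | hBK
    · refine (h1 K B hB).trans ?_
      refine le_trans ?_ (mul_le_mul_of_nonneg_left (h2 K B hBK) (Real.exp_pos _).le)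
      rw [← Real.exp_add]
      apply Real.exp_le_exp.2
      rw [← mul_add]
      apply mul_le_mul_of_nonneg_left _ hn.le
      nlinarith
    · have h7 : Real.log B < Real.log 16 + rd K / 2 := by
        rw [sqrt_rDisc] at hBK
        have h1 := Real.log_lt_log hB0 hBK
        rwa [Real.log_mul (by norm_num) (Real.exp_pos _).ne', Real.log_exp] at h1
      refine le_trans (exc_le_inv R K B) ?_
      refine le_mul_of_one_le_left (Nat.cast_nonneg _) (Real.one_le_exp ?_)
      apply mul_nonneg hn.le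
      have h8 : -(β * Real.log B) ≤ (-β + ε) * Real.log B := by nlinarith
      have h9 : β * Real.log B ≤ 1 * Real.log B := mul_le_mul_of_nonneg_right hβ hlB
      nlinarith

/-- the number of all invariants -/
theorem inv_lower {ε : ℝ} (hε : 0 < ε) : ∃ C : ℝ, 0 < C ∧
    ∀ (K : Type) [Field K] [NumberField K] (B : ℝ), 16 * √(rDisc K) ≤ B →
      (C⁻¹ * B ^ (2 - ε) * rDisc K ^ (-(2 + ε))) ^ Module.finrank ℚ K ≤
        ((InvS K B).ncard : ℝ) := by
  obtain ⟨A, hA, h⟩ := inv_log hε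
  refine ⟨Real.exp A, Real.exp_pos _, ?_⟩
  intro K _ _ B hBK
  have hB : 0 < B := by
    have h1 := hBK
    rw [sqrt_rDisc] at h1
    have : 0 < 16 * Real.exp (rd K / 2) := by positivity
    linarith
  have hδ : 0 < rDisc K := by rw [rDisc_eq]; exact Real.exp_pos _
  rw [pow_form (by positivity) hB hδ, Real.log_inv, Real.log_exp, rDisc_eq, Real.log_exp]
  refine le_trans (le_of_eq ?_) (h K B hBK)
  congr 1
  ring

/-- every invariant occurs -/
theorem every_inv {K : Type} [Field K] [NumberField K] (j : K) (h0 : j ≠ 0) (h1 : j ≠ 1728) :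
    ∃ a b : K, 4 * a ^ 3 + 27 * b ^ 2 ≠ 0 ∧ 6912 * a ^ 3 / (4 * a ^ 3 + 27 * b ^ 2) = j := by
  have h2 : j - 1728 ≠ 0 := sub_ne_zero.2 h1
  have e : 4 * (-3 * j * (j - 1728)) ^ 3 + 27 * (-2 * j * (j - 1728) ^ 2) ^ 2 =
      -186624 * (j ^ 2 * (j - 1728) ^ 3) := by ring
  have hD : 4 * (-3 * j * (j - 1728)) ^ 3 + 27 * (-2 * j * (j - 1728) ^ 2) ^ 2 ≠ 0 := by
    rw [e]
    exact mul_ne_zero (by norm_num) (mul_ne_zero (pow_ne_zero _ h0) (pow_ne_zero _ h2))
  refine ⟨-3 * j * (j - 1728), -2 * j * (j - 1728) ^ 2, hD, ?_⟩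
  rw [div_eq_iff hD, e]
  ring

open Classical in
/-- the property `UT` for all classical instances -/
theorem log_count {κ ε : ℝ} (hκ0 : 0 ≤ κ) (hκ : κ < 1) (hε : 0 < ε) (R : Prp)
    (hR : ∀ (K : Type) [Field K] [NumberField K] (j : K),
      UT κ ((1 - κ) ^ 6 / 1200000) (70 / (1 - κ) ^ 2) j → R K j) :
    ∃ A1 : ℝ, 0 ≤ A1 ∧ ∀ (K : Type) [Field K] [NumberField K] (B : ℝ), 1 ≤ B →
      ((ExcS R K B).ncard : ℝ) ≤ Real.exp (Module.finrank ℚ K *
        (A1 + (2 - (1 - κ) ^ 2 / 200 + ε) * Real.log B)) := by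
  obtain ⟨A, hA, h⟩ := exc_count2 hκ0 hκ hε
  refine ⟨A, hA, ?_⟩
  intro K _ _ B hB
  refine (ncard_le fun E hE => ?_).2
  refine (h K (Module.finrank ℚ K * Real.log B) E
    (mul_nonneg n_pos.le (Real.log_nonneg hB)) ?_).trans (le_of_eq (by congr 1; ring))
  intro j hj
  obtain ⟨⟨h1, h2, h3⟩, h4⟩ := hE (Finset.mem_coe.2 hj)
  rw [ht_log] at h3
  exact ⟨h1, h2, h3, fun hcon => h4 (hR K j hcon)⟩

end Pool.Agent.Q237.LS
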