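import Mathlib
import Pool.Agent.Q237.LS.Tot
import Pool.Agent.Y733.FF.Str

/-!
# The relative Faltings height and the torsion of powers
-/

set_option autoImplicit false
set_option linter.unusedSectionVars false

namespace Pool.Agent.Q237.LS

open NumberField IsDedekindDomain Pool.Agent.H691R3 Pool.Agent.W223.AK Pool.Agent.Y733.LS
  Pool.Agent.TH942 Pool.Agent.TH910.LS Pool.Agent.Y733.FF
open Pool.Agent.TH876.FH (GoodAt IsPeriod arch Hj_height Hj_norm)

/-- the order of a torsion point of a power is at most the maximal order of a torsion point -/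
theorem fam_tors {A : Type} [AddCommGroup A] {B : ℝ}
    (h : ∀ Q : A, IsOfFinAddOrder Q → (addOrderOf Q : ℝ) ≤ B) {g : ℕ} (P : Fin g → A)
    (hP : ∀ k, IsOfFinAddOrder (P k)) : ∃ m : ℕ, 0 < m ∧ (m : ℝ) ≤ B ∧ m • P = 0 := by
  classical
  have hB1 : (1 : ℝ) ≤ B := by
    have := h 0 (by exact IsOfFinAddOrder.zero)
    simpa using this
  set T := AddCommGroup.torsion A with hT
  have hex : AddMonoid.ExponentExists T := by
    refine ⟨(⌊B⌋₊).factorial, Nat.factorial_pos _, ?_⟩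
    intro x
    have hx : IsOfFinAddOrder (x : A) := x.2
    have h1 := h x hx
    have h2 : addOrderOf (x : A) ≤ ⌊B⌋₊ := Nat.le_floor h1
    have h3 : addOrderOf (x : A) ∣ (⌊B⌋₊).factorial := Nat.dvd_factorial hx.addOrderOf_pos h2
    apply Subtype.ext
    push_cast
    exact addOrderOf_dvd_iff_nsmul_eq_zero.1 h3
  obtain ⟨y, hy⟩ := AddMonoid.exists_addOrderOf_eq_exponent hex
  have hy1 : IsOfFinAddOrder (y : A) := y.2
  have hy2 := h y hy1
  have hy3 : addOrderOf (y : A) = addOrderOf y := AddSubgroup.addOrderOf_coe y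
  refine ⟨AddMonoid.exponent T, Nat.pos_of_ne_zero hex.exponent_ne_zero, ?_, ?_⟩
  · rw [← hy, ← hy3]
    exact hy2
  · funext k
    have h5 := AddMonoid.exponent_nsmul_eq_zero (⟨P k, hP k⟩ : T)
    have h6 := congrArg (fun z : T => (z : A)) h5
    simpa using h6

theorem tors_pi {A : Type} [AddCommGroup A] {g : ℕ} {P : Fin g → A} (hP : IsOfFinAddOrder P)
    (k : Fin g) : IsOfFinAddOrder (P k) := by
  rw [isOfFinAddOrder_iff_nsmul_eq_zero] at hP ⊢
  obtain ⟨m, hm, h⟩ := hP
  exact ⟨m, hm, by simpa using congrFun h k⟩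

theorem tors_of_pi {A : Type} [AddCommGroup A] {g : ℕ} {P : Fin g → A}
    (hP : ∀ k, IsOfFinAddOrder (P k)) : IsOfFinAddOrder P := by
  rw [isOfFinAddOrder_iff_nsmul_eq_zero]
  refine ⟨∏ k, addOrderOf (P k), Finset.prod_pos fun k _ => (hP k).addOrderOf_pos, ?_⟩
  funext k
  have h1 : addOrderOf (P k) ∣ ∏ k, addOrderOf (P k) := Finset.dvd_prod_of_mem _ (Finset.mem_univ k)
  have := addOrderOf_dvd_iff_nsmul_eq_zero.1 h1
  simpa using this

/-- **the lower bound with the relative Faltings height** -/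
theorem strongLT : ∃ c₀ : ℝ, 0 < c₀ ∧ ∀ (K : Type) [Field K] [NumberField K] [DecidableEq K]
    (c B : ℝ) (j : K), 0 ≤ c →
    LT c B j → ∀ (a b : K) (τ : InfinitePlace K → UpperHalfPlane), dl a b ≠ 0 → jj a b = j →
    IsPeriod (jj a b) τ → ∀ (g : ℕ) (M : Matrix (Fin g) (Fin g) ℤ),
    (M.map (Int.cast : ℤ → ℝ)).PosDef → ∀ P : Fin g → SPt a b, ¬ IsOfFinAddOrder P →
      c₀ * c * (discSum (sw a b) + ∑ w : InfinitePlace K, (w.mult : ℝ) * arch (τ w)) ≤
        chatM M P ∧ c₀ * c * Module.finrank ℚ K ≤ chatM M P := by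
  obtain ⟨C, hC, h⟩ := fal_le
  refine ⟨1 / (10 + C), by positivity, ?_⟩
  intro K _ _ _ c B j hc hj a b τ hD hab hτ g M hM P hP
  have hn : (0 : ℝ) < Module.finrank ℚ K := by exact_mod_cast Module.finrank_pos
  obtain ⟨S, hS, h1⟩ := h K a b τ hD hτ
  have h2 := (hj a b hD hab).2 S hS g M hM P hP
  rw [← hab] at h2
  have h3 : 0 ≤ ht (jj a b) := ht_nonneg _
  have h4 : 0 ≤ ∑ v ∈ S, Real.log (Nv v) := Finset.sum_nonneg fun v _ => (log_Nv_pos v).le
  have h10 : 0 < 10 + C := by positivity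
  constructor
  · refine le_trans ?_ h2
    have e : 1 / (10 + C) * c = c / (10 + C) := by ring
    rw [e, div_mul_eq_mul_div, div_le_iff₀ h10, mul_assoc]
    apply mul_le_mul_of_nonneg_left _ hc
    nlinarith
  · refine le_trans ?_ h2
    have e : 1 / (10 + C) * c = c / (10 + C) := by ring
    rw [e, div_mul_eq_mul_div, div_le_iff₀ h10, mul_assoc]
    apply mul_le_mul_of_nonneg_left _ hc
    nlinarith

end Pool.Agent.Q237.LS
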